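import Pool.Agent.AGU.Stmts

/-!
# AGU, row GCW (helper51): exponential weights
-/

set_option autoImplicit false

open scoped BigOperators Matrix

noncomputable section

namespace Pool.Agent.AGU.H51

theorem abs_one_sub_exp_le (t x : ℝ) (h : |t| ≤ x) : |1 - Real.exp t| ≤ Real.exp x - 1 := by
  have hx : Real.exp |t| ≤ Real.exp x := Real.exp_le_exp.2 h
  rcases le_total 0 t with ht | ht
  · have h1 : 1 ≤ Real.exp t := Real.one_le_exp ht
    rw [abs_of_nonpos (by linarith)]
    rw [abs_of_nonneg ht] at hx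
    linarith
  · have h1 : Real.exp t ≤ 1 := Real.exp_le_one_iff.2 ht
    rw [abs_of_nonneg (by linarith)]
    rw [abs_of_nonpos ht] at hx
    have h2 : Real.exp t * Real.exp (-t) = 1 := by
      rw [← Real.exp_add, add_neg_cancel, Real.exp_zero]
    have h3 : 0 < Real.exp t := Real.exp_pos t
    have h4 : 2 ≤ Real.exp t + Real.exp (-t) := by
      have h5 : 0 < Real.exp (-t) := Real.exp_pos _
      nlinarith [sq_nonneg (Real.exp t - Real.exp (-t))]
    linarith

theorem exp_conv (β β₁ x : ℝ) (h0 : 0 ≤ β) (h1 : β ≤ β₁) (h2 : 0 < β₁) :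
    Real.exp (β * x) - 1 ≤ β / β₁ * Real.exp (β₁ * x) := by
  have hθ0 : 0 ≤ β / β₁ := div_nonneg h0 h2.le
  have hθ1 : β / β₁ ≤ 1 := (div_le_one h2).2 h1
  have h := convexOn_exp.2 (Set.mem_univ (β₁ * x)) (Set.mem_univ (0 : ℝ)) hθ0
    (by linarith : 0 ≤ 1 - β / β₁) (by ring)
  simp only [smul_eq_mul, mul_zero, add_zero, Real.exp_zero, mul_one] at h
  have h3 : β / β₁ * (β₁ * x) = β * x := by
    field_simp
  rw [h3] at h
  linarith

theorem gcw : GcwStmt := by
  intro X _ _ G k R m s ε c c₀ C₀ β β₁ C₁ D hrun hD hD0 htri hβ hβ1 hβ2 hC1 hsum o ho a ha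
  have key : ∀ b ∈ R, s * ‖G a b‖ ^ 2 *
        (|1 - Real.exp (-(β * D o a)) / Real.exp (-(β * D o b))| ⊔
          |1 - Real.exp (-(β * D o b)) / Real.exp (-(β * D o a))|) * (m b).im ≤
      β / β₁ * (k b * ‖G a b‖ ^ 2 * Real.exp (β₁ * D a b)) := by
    intro b hb
    have hab : |D o b - D o a| ≤ D a b := by
      rw [abs_le]
      constructor
      · have h := htri o a b
        rw [(hD b a).2] at h
        linarith
      · have h := htri o b a
        linarith
    have h1 : |1 - Real.exp (-(β * D o a)) / Real.exp (-(β * D o b))| ≤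
        Real.exp (β * D a b) - 1 := by
      rw [← Real.exp_sub]
      apply abs_one_sub_exp_le
      have h2 : -(β * D o a) - -(β * D o b) = β * (D o b - D o a) := by ring
      rw [h2, abs_mul, abs_of_nonneg hβ]
      exact mul_le_mul_of_nonneg_left hab hβ
    have h2 : |1 - Real.exp (-(β * D o b)) / Real.exp (-(β * D o a))| ≤
        Real.exp (β * D a b) - 1 := by
      rw [← Real.exp_sub]
      apply abs_one_sub_exp_le
      have h2 : -(β * D o b) - -(β * D o a) = -(β * (D o b - D o a)) := by ring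
      rw [h2, abs_neg, abs_mul, abs_of_nonneg hβ]
      exact mul_le_mul_of_nonneg_left hab hβ
    have h3 := (sup_le h1 h2).trans (exp_conv β β₁ (D a b) hβ hβ1 hβ2)
    have hk := hrun.hk b hb
    have hm : 0 ≤ (m b).im := le_trans hrun.hc.2.2.1.le (hrun.hm b hb).1
    have hG : 0 ≤ ‖G a b‖ ^ 2 := by positivity
    have hE : 0 ≤ β / β₁ * Real.exp (β₁ * D a b) :=
      mul_nonneg (div_nonneg hβ hβ2.le) (Real.exp_pos _).le
    calc s * ‖G a b‖ ^ 2 *
        (|1 - Real.exp (-(β * D o a)) / Real.exp (-(β * D o b))| ⊔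
          |1 - Real.exp (-(β * D o b)) / Real.exp (-(β * D o a))|) * (m b).im
        ≤ s * ‖G a b‖ ^ 2 * (β / β₁ * Real.exp (β₁ * D a b)) * (m b).im := by
          apply mul_le_mul_of_nonneg_right _ hm
          exact mul_le_mul_of_nonneg_left h3 (mul_nonneg hrun.hs.le hG)
      _ = (s * (m b).im) * (‖G a b‖ ^ 2 * (β / β₁ * Real.exp (β₁ * D a b))) := by ring
      _ ≤ k b * (‖G a b‖ ^ 2 * (β / β₁ * Real.exp (β₁ * D a b))) :=
          mul_le_mul_of_nonneg_right hk (mul_nonneg hG hE)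
      _ = β / β₁ * (k b * ‖G a b‖ ^ 2 * Real.exp (β₁ * D a b)) := by ring
  have hnn : ∀ b, 0 ≤ k b * ‖G a b‖ ^ 2 * Real.exp (β₁ * D a b) := fun b =>
    mul_nonneg (mul_nonneg (hrun.hw.hk b).le (by positivity)) (Real.exp_pos _).le
  calc _ ≤ ∑ b ∈ R, β / β₁ * (k b * ‖G a b‖ ^ 2 * Real.exp (β₁ * D a b)) :=
        Finset.sum_le_sum key
    _ = β / β₁ * ∑ b ∈ R, k b * ‖G a b‖ ^ 2 * Real.exp (β₁ * D a b) := by
        rw [Finset.mul_sum]
    _ ≤ β / β₁ * ∑ b, k b * ‖G a b‖ ^ 2 * Real.exp (β₁ * D a b) :=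
        mul_le_mul_of_nonneg_left
          (Finset.sum_le_sum_of_subset_of_nonneg (Finset.subset_univ _) fun b _ _ => hnn b)
          (div_nonneg hβ hβ2.le)
    _ ≤ β / β₁ * (C₁ * (m a).im) :=
        mul_le_mul_of_nonneg_left (hsum a ha) (div_nonneg hβ hβ2.le)
    _ = β / β₁ * C₁ * (m a).im := by ring

end Pool.Agent.AGU.H51
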